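import Mathlib

/-!
# Project IR: independent random sets and the Erdős-Turán problem

Let `A` be a random set of natural numbers with independent memberships (arbitrary probabilities `p n`). If `A`, or `A` together
with a sparse set `E` chosen after `A`, is a basis of order 2, then `A` has `≥ c √(N log N)` elements up to every large `N`.

`EB p M F` is the expectation of `F (A ∩ [0, M))`. (Only finite averages here; the transfer to a probability space is TRF.)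
-/

set_option autoImplicit false

namespace Pool.Agent.V5helper49.IR

open Finset MeasureTheory ProbabilityTheory Filter Topology
open scoped ENNReal

/-- the expectation of `F (A ∩ [0, M))` -/
noncomputable def EB (p : ℕ → ℝ) : ℕ → (Finset ℕ → ℝ) → ℝ
  | 0, F => F ∅
  | M + 1, F => p M * EB p M (fun B => F (insert M B)) + (1 - p M) * EB p M F

/-- `n` is not a sum of two elements of `B` -/
def Zr (n : ℕ) (B : Finset ℕ) : Prop := ∀ a ∈ B, ∀ b ∈ B, a + b ≠ n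

/-- `p (n - k)`, and `0` for `k > n` -/
noncomputable def qq (p : ℕ → ℝ) (n k : ℕ) : ℝ := if k ≤ n then p (n - k) else 0

/-- at least the expected number of representations of `n` -/
noncomputable def lam (p : ℕ → ℝ) (n : ℕ) : ℝ := ∑ k ∈ range (n + 1), p k * p (n - k) + p (n / 2)

/-- a bound for the covariance of the events `n ∉ A + A`, `m ∉ A + A` -/
noncomputable def cv (p : ℕ → ℝ) (M n m : ℕ) : ℝ :=
  ∑ k ∈ range M, p k * qq p n k * qq p m k + (p (n / 2) * qq p m (n / 2) + p (m / 2) * qq p n (m / 2))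

open Classical in
/-- **IR-ONE** (120 lines). The probability that `n` is not represented.
Proof. For `U ⊆ {k : n ≤ n - k + ...}` consider `f M U = EB p M (1[no element of B is in U, Zr n B])`. By induction on `M`, for all `U ⊆ {k | k ≤ n, M ≤ n - k}` (the partners of elements `≥ M`):
`f M U = ∏_{k ∈ U, k < M} (1 - p k) * ∏_{k < n - k < M} (1 - p k p (n - k)) * [n even, n/2 < M] (1 - p (n/2))` (or `≥`). Step from `M` to `M + 1` (`U ⊆ {k | M + 1 ≤ n - k}`): if `M ∈ U` then `M` must be absent: factor `1 - p M`. Otherwise, if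
`2 M = n`: factor `1 - p M`. If `M ≤ n < 2 M`: the partner `n - M < M` is not in `U`; `f (M+1) U = (1 - p M) f M U + p M f M (U ∪ {n - M}) = f M U ((1 - p M) + p M (1 - p (n - M)))`. If `2 M < n` (or `M > n`): no condition, `f (M + 1) U = f M U`
(the partner is `≥ M + 1`). With `U = ∅`, and `1 - x ≥ exp (-x/δ)` for `0 ≤ x ≤ 1 - δ` (`log (1 - x) ≥ -x/(1 - x)`): the product is `≥ exp (-lam/δ)`, since for `k ≠ n - k` `p k p (n - k) ≤ 1 - δ` and `p (n/2) ≤ 1 - δ` for even `n`. -/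
def S_ONE : Prop := ∀ p : ℕ → ℝ, (∀ k, 0 ≤ p k ∧ p k ≤ 1) → ∀ δ : ℝ, 0 < δ → ∀ M n : ℕ, n < M →
  (∀ k ≤ n, p k ≤ 1 - δ ∨ p (n - k) ≤ 1 - δ) →
  Real.exp (-(lam p n / δ)) ≤ EB p M (fun B => if Zr n B then 1 else 0)

open Classical in
/-- **IR-COV** (150 lines). The covariance of two such events.
Proof. For a finite `U` with all elements `≥ M` let `F n U B = 1[Zr n (B ∪ U)]`, and let `w M n U k` (`k < M`) be `0` if `k > n`, `1[n - k ∈ U]` if `n - k ≥ M`, `1` if `n - k = k`, and `p (n - k)` otherwise. Claim, by induction on `M`, for all such `U` (`n ≠ m`):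
`EB p M (F n U * F m U) ≤ EB p M (F n U) * EB p M (F m U) + ∑_{k < M} p k * w M n U k * w M m U k`. Step (`U` above `M + 1`, `U' = insert M U`, `E = EB p M`): the left side is `p E (F n U' F m U') + (1 - p) E (F n U F m U)`, `p = p M`; apply the induction
hypothesis to `U'` and `U`, and use `p a' b' + (1 - p) a b = (p a' + (1 - p) a) (p b' + (1 - p) b) + p (1 - p) (a - a') (b - b')`, where `0 ≤ a - a' = E (F n U - F n U') ≤ w (M+1) n U M` (if the inclusion of `M` matters then its partner `n - M` is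
in `U`, or `= M`, or is `< M` and in `B`, probability `p (n - M)`). For `k < M`: `p w M n U' k w M m U' k + (1 - p) w M n U k w M m U k = w (M+1) n U k w (M+1) m U k`: if `n - k = M` then `w M n U' k = 1`, `w M n U k = 0`, `w (M+1) n U k = p M`, and
`w M m U' k = w M m U k` as `m ≠ n`. For `U = ∅`, `n, m < M`: `w M n ∅ k = qq p n k` for `2 k ≠ n` and `1` for `2 k = n`; for `n ≠ m` both exceptions do not happen at the same `k`, so the sum is `≤ cv p M n m`. -/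
def S_COV : Prop := ∀ p : ℕ → ℝ, (∀ k, 0 ≤ p k ∧ p k ≤ 1) → ∀ M n m : ℕ, n < M → m < M → n ≠ m →
  EB p M (fun B => (if Zr n B then 1 else 0) * (if Zr m B then 1 else 0)) ≤
    EB p M (fun B => if Zr n B then 1 else 0) * EB p M (fun B => if Zr m B then 1 else 0) + cv p M n m

open Classical in
/-- **IR-CHE** (80 lines, uses COV). Chebyshev's inequality. Proof. `EB p M` is a positive linear functional with `EB p M 1 = 1` (short inductions). `Z = ∑_{n ∈ L} 1[Zr n]`, `m = EB Z`; `1[Z < m/2] ≤ 4 (Z - m)²/m²`,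
`EB (Z - m)² = ∑_n (e_n - e_n²) + ∑_{n ≠ n'} (EB (1 1) - e_n e_n') ≤ m + ∑_{n ≠ n'} cv`. -/
def S_CHE : Prop := ∀ p : ℕ → ℝ, (∀ k, 0 ≤ p k ∧ p k ≤ 1) → ∀ (M : ℕ) (L : Finset ℕ), L ⊆ range M → ∀ m : ℝ, 0 < m →
  m ≤ ∑ n ∈ L, EB p M (fun B => if Zr n B then 1 else 0) →
  EB p M (fun B => if ((L.filter (fun n => Zr n B)).card : ℝ) < m / 2 then 1 else 0) ≤
    4 * (1 / m + (∑ n ∈ L, ∑ k ∈ L, cv p M n k) / m ^ 2)

open Classical in
/-- **IR-SCL** (200 lines, uses ONE, CHE). One scale.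
Proof. `M = N + 1`, `S = ∑_{k ∈ range M} p k`, `c² ≤ δ κ η/64`. `∑_{n ≤ N} lam p n ≤ S² + 2 S + 1` (`∑_n p (n/2) ≤ 2 S`), so at most `(S² + 2 S + 1)/((δ κ/2) log N) ≤ η N/4` of the `n ≤ N` have `lam p n > (δ κ/2) log N` (large `N`). So the set `L` of the `n` counted in the
hypothesis with `n > η N/4` and `lam p n ≤ (δ κ/2) log N` has `≥ η N - η N/4 - 1 - η N/4 ≥ η N/4` elements, and by ONE `∑_{n ∈ L} EB 1[Zr n] ≥ (η/4) N · N^(-κ/2) =: m`. `∑_{n, k ≤ N} cv p M n k ≤ S³ + 4 S²` (`∑_n qq p n k ≤ S`), and `S ≤ N^(1/2 + κ/4)`. CHE: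
the probability of `Z < m/2` is `≤ 4/m + 4 (S³ + 4 S²)/m² ≤ C N^(-1/2 + 7κ/4) ≤ N^(-1/4)` (`κ ≤ 1/10`), and `m/2 ≥ N^(1-κ)` for large `N`. (If `Z' :=` the number in the claim is `< N^(1-κ)` then `Z ≤ Z' < m/2`.) -/
def S_SCL : Prop := ∀ δ η κ : ℝ, 0 < δ → 0 < η → 0 < κ → κ ≤ 1 / 10 → ∃ c : ℝ, 0 < c ∧ ∃ N₀ : ℕ, ∀ N : ℕ, N₀ ≤ N →
  ∀ p : ℕ → ℝ, (∀ k, 0 ≤ p k ∧ p k ≤ 1) → ∑ k ∈ range (N + 1), p k ≤ c * Real.sqrt (N * Real.log N) →
  η * N ≤ (((range (N + 1)).filter (fun n => ∀ k ≤ n, p k ≤ 1 - δ ∨ p (n - k) ≤ 1 - δ)).card : ℝ) →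
  EB p (N + 1) (fun B => if (((range (N + 1)).filter (fun n : ℕ => η * N / 4 < (n : ℝ) ∧ Zr n B)).card : ℝ) < (N : ℝ) ^ (1 - κ) then 1 else 0) ≤
    (N : ℝ) ^ (-(1 / 4) : ℝ)

open Classical in
/-- **IR-TRF** (100 lines). The transfer. Proof. Induction on `M`, for all `Q`: the event for `M + 1` is the disjoint union of `{M ∈ A} ∩ {Q (insert M (A ∩ [0,M)))}` and `{M ∉ A} ∩ {Q (A ∩ [0, M))}`, and `{M ∈ A}` is independent of the events which depend
only on the `{k ∈ A}`, `k < M` (`iIndepSet`; for example `iIndepFun` of the indicator functions and `iIndepFun.indepFun_finset`). -/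
def S_TRF : Prop := ∀ {Ω : Type*} [MeasurableSpace Ω] (μ : Measure Ω) [IsProbabilityMeasure μ] (A : Ω → Set ℕ),
  (∀ n, MeasurableSet {ω | n ∈ A ω}) → iIndepSet (fun n => {ω | n ∈ A ω}) μ → ∀ (M : ℕ) (Q : Finset ℕ → Prop),
  MeasurableSet {ω | Q ((range M).filter (fun k => k ∈ A ω))} ∧
  μ.real {ω | Q ((range M).filter (fun k => k ∈ A ω))} = EB (fun n => μ.real {ω | n ∈ A ω}) M (fun B => if Q B then 1 else 0)

open Classical in
/-- **IR-INF** (150 lines, uses SCL, TRF). Infinitely many good scales.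
Proof. Take `c` of SCL. For the infinitely many `N` with `∑ ≤ c √(N log N)` (and `N ≥ N₀`, and the hypothesis at `N`): by SCL and TRF the first condition fails with probability `≤ N^(-1/4)`; by Markov's inequality (the expectation of the number of elements is the sum, `≤ c √(N log N)`)
the second one fails with probability `≤ c √(log N) N^(-κ)`. Both tend to `0`. If `b_N` is the probability that one of them fails, then for every `N₁` the probability that all these `N ≥ N₁` fail is `≤ inf b_N = 0`; union over `N₁`. -/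
def S_INF : Prop := ∀ δ η κ : ℝ, 0 < δ → 0 < η → 0 < κ → κ ≤ 1 / 10 → ∃ c : ℝ, 0 < c ∧
  ∀ {Ω : Type*} [MeasurableSpace Ω] (μ : Measure Ω) [IsProbabilityMeasure μ] (A : Ω → Set ℕ),
  (∀ n, MeasurableSet {ω | n ∈ A ω}) → iIndepSet (fun n => {ω | n ∈ A ω}) μ →
  (∀ᶠ N : ℕ in atTop, η * N ≤ (((range (N + 1)).filter (fun n => ∀ k ≤ n, μ.real {ω | k ∈ A ω} ≤ 1 - δ ∨ μ.real {ω | n - k ∈ A ω} ≤ 1 - δ)).card : ℝ)) →
  (∃ᶠ N : ℕ in atTop, ∑ k ∈ range (N + 1), μ.real {ω | k ∈ A ω} ≤ c * Real.sqrt (N * Real.log N)) →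
  ∀ᵐ ω ∂μ, ∃ᶠ N : ℕ in atTop,
    (N : ℝ) ^ (1 - κ) ≤ (((range (N + 1)).filter (fun n : ℕ => η * N / 4 < (n : ℝ) ∧ ∀ a ∈ A ω, ∀ b ∈ A ω, a + b ≠ n)).card : ℝ) ∧
    (((range (N + 1)).filter (fun k => k ∈ A ω)).card : ℝ) ≤ (N : ℝ) ^ (1 / 2 + κ)

open Classical in
/-- **IR-ADV** (80 lines, deterministic). A sparse correction does not help.
Proof. Suppose all `n ≥ n₀` are in `(A ∪ E) + (A ∪ E)`. Take a large `N` of the frequent set, `η N/4 ≥ n₀`. The `n` counted in the first condition are `e + a` or `e + e'` with `e, e' ∈ E ∩ [0,N]`, `a ∈ A ∩ [0,N]`, so their number is `≤ N^θ (N^(1/2+κ) + N^θ) ≤ 2 N^(θ+1/2+κ)` (for `θ < 1/2`;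
if `θ < 0`, still fine), which is `< N^(1-κ)` for large `N`. Contradiction. -/
def S_ADV : Prop := ∀ η κ θ : ℝ, 0 < η → 0 < κ → θ + 1 / 2 + 2 * κ < 1 → ∀ A E : Set ℕ,
  (∃ᶠ N : ℕ in atTop,
    (N : ℝ) ^ (1 - κ) ≤ (((range (N + 1)).filter (fun n : ℕ => η * N / 4 < (n : ℝ) ∧ ∀ a ∈ A, ∀ b ∈ A, a + b ≠ n)).card : ℝ) ∧
    (((range (N + 1)).filter (fun k => k ∈ A)).card : ℝ) ≤ (N : ℝ) ^ (1 / 2 + κ)) →
  (∀ᶠ N : ℕ in atTop, (((range (N + 1)).filter (fun k => k ∈ E)).card : ℝ) ≤ (N : ℝ) ^ θ) →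
  ¬ ∀ᶠ n : ℕ in atTop, ∃ a ∈ A ∪ E, ∃ b ∈ A ∪ E, a + b = n

open Classical in
/-- **IR-LWR** (120 lines). The number of elements. Proof. The variance of the number of elements `≤ N` is `≤ S N = ∑_{k ≤ N} P(k ∈ A)` (independence), so by Chebyshev it is `< S N/2` with probability `≤ 4/S N`. For `N = 2^j` this is summable (`S ≥ c √(N log N)`), so by Borel-Cantelli
almost surely `#(A ∩ [0, 2^j]) ≥ S (2^j)/2` for all large `j`; for `2^j ≤ N < 2^(j+1)`: `#(A ∩ [0,N]) ≥ (c/2) √(2^j log 2^j) ≥ (c/4) √(N log N)`. -/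
def S_LWR : Prop := ∀ c : ℝ, 0 < c →
  ∀ {Ω : Type*} [MeasurableSpace Ω] (μ : Measure Ω) [IsProbabilityMeasure μ] (A : Ω → Set ℕ),
  (∀ n, MeasurableSet {ω | n ∈ A ω}) → iIndepSet (fun n => {ω | n ∈ A ω}) μ →
  (∀ᶠ N : ℕ in atTop, c * Real.sqrt (N * Real.log N) ≤ ∑ k ∈ range (N + 1), μ.real {ω | k ∈ A ω}) →
  ∀ᵐ ω ∂μ, ∀ᶠ N : ℕ in atTop, c / 4 * Real.sqrt (N * Real.log N) ≤ (((range (N + 1)).filter (fun k => k ∈ A ω)).card : ℝ)

open Classical in
/-- **IR-REP** (60 lines, deterministic). Many elements give many representations. Proof. The `#² ≥ c² N log N` pairs of elements `≤ N` have sums `≤ 2 N`, so some `n ≤ 2 N` has `≥ c² N log N/(2 N + 1) ≥ (c²/3) log N ≥ (c²/4) log n` representations; this number tends to infinity with `N`, so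
`n` takes infinitely many values (for each `n` the number of representations is at most `n + 1`). -/
def S_REP : Prop := ∀ c : ℝ, 0 < c → ∀ A : Set ℕ,
  (∀ᶠ N : ℕ in atTop, c * Real.sqrt (N * Real.log N) ≤ (((range (N + 1)).filter (fun k => k ∈ A)).card : ℝ)) →
  ∃ᶠ n : ℕ in atTop, c ^ 2 / 4 * Real.log n ≤ ({x : ℕ × ℕ | x.1 ∈ A ∧ x.2 ∈ A ∧ x.1 + x.2 = n}.ncard : ℝ)

end Pool.Agent.V5helper49.IR
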