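import Pool.Agent.V5helper49.IR.Asm
import Pool.Agent.V5helper69.IR.ONE
import Pool.Agent.V5helper72.IR.COV
import Pool.Agent.V5helper12.IR.CHE
import Pool.Agent.V5helper96.IR.SCL
import Pool.Agent.V5helper53.IR.TRF
import Pool.Agent.V5helper7.IR.INF
import Pool.Agent.V5helper6.IR.ADV
import Pool.Agent.V5helper9.IR.LWR

/-! Project IR: the theorem. -/

set_option autoImplicit false

namespace Pool.Agent.V5helper49.IR

open Finset MeasureTheory ProbabilityTheory Filter Topology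

universe u

theorem main : ∀ δ η θ : ℝ, 0 < δ → 0 < η → θ < 1 / 2 → ∃ c : ℝ, 0 < c ∧
    ∀ {Ω : Type u} [MeasurableSpace Ω] (μ : Measure Ω) [IsProbabilityMeasure μ] (A : Ω → Set ℕ),
    (∀ n, MeasurableSet {ω | n ∈ A ω}) → iIndepSet (fun n => {ω | n ∈ A ω}) μ →
    (∀ᶠ N : ℕ in atTop, η * N ≤ (({n : ℕ | ∀ k ≤ n, μ.real {ω | k ∈ A ω} ≤ 1 - δ ∨ μ.real {ω | n - k ∈ A ω} ≤ 1 - δ} ∩ Set.Iic N).ncard : ℝ)) →
    ∀ᵐ ω ∂μ, ∀ E : Set ℕ, (∀ᶠ N : ℕ in atTop, ((E ∩ Set.Iic N).ncard : ℝ) ≤ (N : ℝ) ^ θ) →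
      (∀ᶠ n : ℕ in atTop, 1 ≤ rep (A ω ∪ E) n) →
      (∀ᶠ N : ℕ in atTop, c * Real.sqrt (N * Real.log N) ≤ ((A ω ∩ Set.Iic N).ncard : ℝ)) ∧
      ∃ᶠ n : ℕ in atTop, c * Real.log n ≤ rep (A ω) n :=
  fin_main (Pool.Agent.V5helper7.IR.t_INF
      (Pool.Agent.V5helper96.IR.t_SCL Pool.Agent.V5helper69.IR.t_ONE (Pool.Agent.V5helper12.IR.t_CHE Pool.Agent.V5helper72.IR.t_COV))
      Pool.Agent.V5helper53.IR.t_TRF)
    Pool.Agent.V5helper6.IR.t_ADV Pool.Agent.V5helper9.IR.t_LWR Pool.Agent.V5helper6.IR.t_REP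

end Pool.Agent.V5helper49.IR
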