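import Pool.Agent.V5helper49.IR.Stm

/-!
# Project IR, part 2: Q2 for random sets with independent elements and vanishing probabilities

If `P(n ∈ A) → 0` then almost surely: if `A` has `≥ c √N` elements up to infinitely many `N` (some `c > 0`), then `r_A` is unbounded.
`rr k₀ n B` is the number of pairs `a < b` in `B` with `a + b = n`, `a ≥ k₀`.
-/

set_option autoImplicit false

namespace Pool.Agent.V5helper49.IR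

open Finset MeasureTheory ProbabilityTheory Filter Topology
open scoped ENNReal

/-- the number of the pairs `a < b` in `B` with `a + b = n` and `a ≥ k₀` -/
def rr (k₀ n : ℕ) (B : Finset ℕ) : ℕ := (B.filter (fun a => k₀ ≤ a ∧ 2 * a < n ∧ n - a ∈ B)).card

/-- the smaller elements of the possible pairs, below `M` -/
def PS (k₀ M n : ℕ) : Finset ℕ := (range M).filter (fun a => k₀ ≤ a ∧ 2 * a < n ∧ n - a < M)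

/-- the expectation of `rr` -/
noncomputable def lm (p : ℕ → ℝ) (k₀ M n : ℕ) : ℝ := ∑ a ∈ PS k₀ M n, p a * p (n - a)

/-- **IR-SUB** (30 lines). Proof. Induction on `M`. -/
def S_SUB : Prop := ∀ (p : ℕ → ℝ) (M : ℕ) (T : Finset ℕ), T ⊆ range M →
  EB p M (fun B => if T ⊆ B then 1 else 0) = ∏ t ∈ T, p t

/-- **IR-COV2** (150 lines; adaptation of COV, `V5helper72.IR.COV`; helper72 first). The covariance.
Proof. As COV with `F n U B = 1[K ≤ rr k₀ n (B ∪ U)]`, which is increasing in `B`: the inclusion of `M` matters only if its partner `n - M` is present and `≠ M`, so `0 ≤ E (F n (insert M U) - F n U) ≤ w`, with `w` as in COV, but `0` in the case `n - k = k`. No exceptional terms. -/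
def S_COV2 : Prop := ∀ p : ℕ → ℝ, (∀ k, 0 ≤ p k ∧ p k ≤ 1) → ∀ (K k₀ M n m : ℕ), n ≠ m →
  EB p M (fun B => (if K ≤ rr k₀ n B then 1 else 0) * (if K ≤ rr k₀ m B then 1 else 0)) ≤
    EB p M (fun B => if K ≤ rr k₀ n B then 1 else 0) * EB p M (fun B => if K ≤ rr k₀ m B then 1 else 0) +
      ∑ k ∈ range M, p k * qq p n k * qq p m k

/-- **IR-PZ** (150 lines, uses SUB). `K` pairs with positive probability.
Proof. Let `q a = p a p (n - a) ≤ ε₀`, `a ∈ PS`. Choose `P ⊆ PS` with `λ₀ ≤ ∑_{a ∈ P} q a ≤ λ₀ + ε₀ ≤ 2 λ₀` (a minimal subset with sum `≥ λ₀`). Let `Y B` be the number of the `T ⊆ P`, `#T = K`, with `a, n - a ∈ B` for all `a ∈ T`. By SUB (the elements `a`, `n - a`, `a ∈ P`, are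
distinct and `< M`) `EB Y = e_K := ∑_{T ⊆ P, #T = K} ∏_{a ∈ T} q a` and `EB Y² = ∑_{T, T'} ∏_{T ∪ T'} q ≤ ∑_{W ⊆ P, #W ≤ 2K} 4^{#W} ∏_W q ≤ exp (4 · 2 λ₀)` (`∑_{W ⊆ P} ∏_W 4 q = ∏ (1 + 4 q) ≤ exp (4 ∑ q)`). By induction `e_K ≥ (λ₀/2)^K/K!` if `K ε₀ ≤ λ₀/2`
(`(j+1) e_{j+1} = ∑_{#T = j} ∏_T q · ∑_{a ∈ P \ T} q a ≥ (λ₀ - j ε₀) e_j`). Cauchy-Schwarz: `EB Y = EB (Y 1[K ≤ rr]) ≤ (EB Y²)^(1/2) (EB 1[K ≤ rr])^(1/2)`. So `c₀ = ((λ₀/2)^K/K!)² exp (-8 λ₀)`. -/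
def S_PZ : Prop := ∀ (K : ℕ) (l₀ : ℝ), 0 < l₀ → ∃ ε₀ : ℝ, 0 < ε₀ ∧ ∃ c₀ : ℝ, 0 < c₀ ∧ ∀ p : ℕ → ℝ, (∀ k, 0 ≤ p k ∧ p k ≤ 1) →
  ∀ k₀ M n : ℕ, (∀ k, k₀ ≤ k → p k ≤ ε₀) → l₀ ≤ lm p k₀ M n →
  c₀ ≤ EB p M (fun B => if K ≤ rr k₀ n B then 1 else 0)

/-- **IR-BIG** (80 lines, uses SUB). Many pairs. Proof. `rr k₀ n B ≥ Y := ∑_{a ∈ PS} 1[{a, n - a} ⊆ B]`, `EB Y = lm =: l`, `EB Y² ≤ l² + l` (SUB), so `EB 1[Y < l/2] ≤ EB 4 (Y - l)²/l² ≤ 4/l` (Chebyshev). -/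
def S_BIG : Prop := ∀ p : ℕ → ℝ, (∀ k, 0 ≤ p k ∧ p k ≤ 1) → ∀ K k₀ M n : ℕ, 2 * (K : ℝ) ≤ lm p k₀ M n → 0 < lm p k₀ M n →
  EB p M (fun B => if rr k₀ n B < K then 1 else 0) ≤ 4 / lm p k₀ M n

/-- **IR-CHE2** (80 lines, uses COV2; adaptation of CHE, `V5helper12.IR.CHE`; helper12 first). Chebyshev. Proof. `Z = ∑_{n ∈ L} 1[K ≤ rr]`, `m ≤ EB Z`, `1[Z = 0] ≤ (Z - EB Z)²/(EB Z)²`, `Var Z ≤ EB Z + ∑_{n ≠ m} cov`, and `(∑_n qq p n k ≤ S)`: `∑_{n, n'} ∑_k p k qq p n k qq p n' k ≤ S³`, `S = ∑_{k < M} p k`,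
if `L ⊆ range (2 M)` (`qq p n k` involves `p (n - k)` with `n - k` possibly `≥ M`; hence the hypothesis that `p` vanishes from `M` on). -/
def S_CHE2 : Prop := ∀ p : ℕ → ℝ, (∀ k, 0 ≤ p k ∧ p k ≤ 1) → ∀ (K k₀ M : ℕ) (L : Finset ℕ), (∀ k, M ≤ k → p k = 0) → ∀ m : ℝ, 0 < m →
  m ≤ ∑ n ∈ L, EB p M (fun B => if K ≤ rr k₀ n B then 1 else 0) →
  EB p M (fun B => if ∀ n ∈ L, rr k₀ n B < K then 1 else 0) ≤ 1 / m + (∑ k ∈ range M, p k) ^ 3 / m ^ 2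

open Classical in
/-- **IR-SCL2** (200 lines, uses PZ, BIG, CHE2). One scale.
Proof. `M = N + 1`, `l₀ = c²/64`, `ε₀` from PZ, also `ε₀ ≤ 1/4`. We may change `p` to `0` from `M` on (`EB p M` does not change). Let `S' = ∑_{k₀ ≤ k < M} p k ≥ c √N - k₀ ≥ (c/2) √N` (large `N`). `∑_n lm p k₀ M n ≥ (S'² - ∑_{k ≥ k₀} p k²)/2 ≥ (S'² - ε₀ S')/2 ≥ S'²/4 ≥ c² N/16`
(all pairs `k₀ ≤ a < b < M`, sum `n < 2 M`). Case A: `lm n ≥ N^(1/20)` for some `n`: BIG gives `≤ 4 N^(-1/20)`. Case B: all `lm n < N^(1/20)`. Then `S'² ≤ 4 ∑ lm ≤ 8 M N^(1/20)`, `S = ∑_{k < M} p k ≤ S' + k₀ ≤ N^(0.53)`. For `L = {n < 2M : lm n ≥ l₀}`: `∑_{n ∉ L} lm n ≤ 2 M l₀ ≤ c² N/24`, so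
`#L ≥ (c² N/48) N^(-1/20)`; PZ: `m = c₀ #L`; CHE2: `≤ 1/m + S³/m² ≤ C N^(-0.95) + C N^(1.59 - 1.9) ≤ N^(-1/20)`. Together `≤ 4 N^(-1/20)`. -/
def S_SCL2 : Prop := ∀ (K : ℕ) (c : ℝ), 0 < c → ∃ ε₀ : ℝ, 0 < ε₀ ∧ ∀ k₀ : ℕ, ∃ N₀ : ℕ, ∀ N : ℕ, N₀ ≤ N →
  ∀ p : ℕ → ℝ, (∀ k, 0 ≤ p k ∧ p k ≤ 1) → (∀ k, k₀ ≤ k → p k ≤ ε₀) → c * Real.sqrt N ≤ ∑ k ∈ range (N + 1), p k →
  EB p (N + 1) (fun B => if ∀ n ∈ (range (2 * (N + 1)) : Finset ℕ), rr k₀ n B < K then 1 else 0) ≤ 4 * (N : ℝ) ^ (-(1 / 20) : ℝ)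

/-- **IR-UNB** (120 lines, uses SCL2, TRF). Unboundedness. Proof. Fix `K`, take `ε₀` of SCL2 and `k₀` with `P(k ∈ A) ≤ ε₀` for `k ≥ k₀`. If `r_A(n) < 2 K` for all `n` then `rr k₀ n (A ∩ [0, N]) < K` for all `n` (`r_A(n) ≥ 2 rr`: the pairs `(a, n - a)`, `(n - a, a)`). By SCL2 and TRF the probability of the latter is
`≤ 4 N^(-1/20)` for infinitely many `N`; so it is `0`. Countable union over `K`. -/
def S_UNB : Prop := ∀ {Ω : Type*} [MeasurableSpace Ω] (μ : Measure Ω) [IsProbabilityMeasure μ] (A : Ω → Set ℕ),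
  (∀ n, MeasurableSet {ω | n ∈ A ω}) → iIndepSet (fun n => {ω | n ∈ A ω}) μ →
  Tendsto (fun n => μ.real {ω | n ∈ A ω}) atTop (𝓝 0) →
  ∀ c : ℝ, 0 < c → (∃ᶠ N : ℕ in atTop, c * Real.sqrt N ≤ ∑ k ∈ range (N + 1), μ.real {ω | k ∈ A ω}) →
  ∀ᵐ ω ∂μ, ∀ K : ℕ, ∃ n : ℕ, K ≤ {x : ℕ × ℕ | x.1 ∈ A ω ∧ x.2 ∈ A ω ∧ x.1 + x.2 = n}.ncard

open Classical in
/-- **IR-UPR** (120 lines; compare LWR, `V5helper9.IR.LWR`; helper9 first). The number of elements, upper bound. Proof. Let `S N = ∑_{k ≤ N} P(k ∈ A)`, `S N = o(√N)` by hypothesis. For rational `c > 0` and `N = 2^j` large: `S N ≤ (c/4) √N`, so by Chebyshev (variance `≤ S N`)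
`P(#(A ∩ [0,N]) > (c/2) √N) ≤ S N/((c/4)² N) ≤ C N^(-1/2)`, summable over `j`; Borel-Cantelli, and monotonicity between the powers of two (`#(A ∩ [0,N]) ≤ (c/2) √(2^(j+1)) ≤ c √N` for `2^j ≤ N ≤ 2^(j+1)`). -/
def S_UPR : Prop := ∀ {Ω : Type*} [MeasurableSpace Ω] (μ : Measure Ω) [IsProbabilityMeasure μ] (A : Ω → Set ℕ),
  (∀ n, MeasurableSet {ω | n ∈ A ω}) → iIndepSet (fun n => {ω | n ∈ A ω}) μ →
  (∀ c : ℝ, 0 < c → ∀ᶠ N : ℕ in atTop, ∑ k ∈ range (N + 1), μ.real {ω | k ∈ A ω} ≤ c * Real.sqrt N) →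
  ∀ᵐ ω ∂μ, ∀ c : ℝ, 0 < c → ∀ᶠ N : ℕ in atTop, (((range (N + 1)).filter (fun k => k ∈ A ω)).card : ℝ) < c * Real.sqrt N

end Pool.Agent.V5helper49.IR
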