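import Pool.Agent.V5helper49.IR.Asm
import Pool.Agent.V5helper49.IR.Stm2

/-! Project IR, part 2: the assembly. -/

set_option autoImplicit false

namespace Pool.Agent.V5helper49.IR

open Finset MeasureTheory ProbabilityTheory Filter Topology
open scoped ENNReal

universe u

open Classical in
theorem fin_two (hUNB : S_UNB.{u}) (hUPR : S_UPR.{u}) {Ω : Type u} [MeasurableSpace Ω] (μ : Measure Ω)
    [IsProbabilityMeasure μ] (A : Ω → Set ℕ) (hm : ∀ n, MeasurableSet {ω | n ∈ A ω})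
    (hi : iIndepSet (fun n => {ω | n ∈ A ω}) μ) (h0 : Tendsto (fun n => μ.real {ω | n ∈ A ω}) atTop (𝓝 0)) :
    ∀ᵐ ω ∂μ, (∃ c : ℝ, 0 < c ∧ ∃ᶠ N : ℕ in atTop, c * Real.sqrt N ≤ ((A ω ∩ Set.Iic N).ncard : ℝ)) →
      ∀ K : ℕ, ∃ n : ℕ, K ≤ rep (A ω) n := by
  by_cases h : ∃ c : ℝ, 0 < c ∧ ∃ᶠ N : ℕ in atTop, c * Real.sqrt N ≤ ∑ k ∈ range (N + 1), μ.real {ω | k ∈ A ω}
  · obtain ⟨c, hc, hf⟩ := h
    filter_upwards [hUNB μ A hm hi h0 c hc hf] with ω hω _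
    exact hω
  · push Not at h
    have h1 : ∀ c : ℝ, 0 < c → ∀ᶠ N : ℕ in atTop, ∑ k ∈ range (N + 1), μ.real {ω | k ∈ A ω} ≤ c * Real.sqrt N := by
      intro c hc
      filter_upwards [h c hc] with N hN
      exact hN.le
    filter_upwards [hUPR μ A hm hi h1] with ω hω hex
    obtain ⟨c, hc, hf⟩ := hex
    exfalso
    refine hf ?_
    filter_upwards [hω c hc] with N hN
    rw [card_eq] at hN
    exact not_le.2 hN

end Pool.Agent.V5helper49.IR
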