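import Pool.Agent.V5helper49.IR.All
import Pool.Agent.V5helper49.IR.Asm2
import Pool.Agent.V5helper82.IR.SUB
import Pool.Agent.V5helper36.IR.COV2
import Pool.Agent.V5helper9.IR.CHE2
import Pool.Agent.V5helper84.IR.BIG
import Pool.Agent.V5helper76.IR.PZ
import Pool.Agent.V5helper84.IR.SCL2
import Pool.Agent.V5helper53.IR.UPR
import Pool.Agent.V5helper63.IR.UNB

/-! Project IR: the second part. -/

set_option autoImplicit false

namespace Pool.Agent.V5helper49.IR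

open Finset MeasureTheory ProbabilityTheory Filter Topology

universe u

theorem main2 {Ω : Type u} [MeasurableSpace Ω] (μ : Measure Ω)
    [IsProbabilityMeasure μ] (A : Ω → Set ℕ) (hm : ∀ n, MeasurableSet {ω | n ∈ A ω})
    (hi : iIndepSet (fun n => {ω | n ∈ A ω}) μ) (h0 : Tendsto (fun n => μ.real {ω | n ∈ A ω}) atTop (𝓝 0)) :
    ∀ᵐ ω ∂μ, (∃ c : ℝ, 0 < c ∧ ∃ᶠ N : ℕ in atTop, c * Real.sqrt N ≤ ((A ω ∩ Set.Iic N).ncard : ℝ)) →
      ∀ K : ℕ, ∃ n : ℕ, K ≤ rep (A ω) n :=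
  fin_two
    (Pool.Agent.V5helper63.IR.t_UNB
      (Pool.Agent.V5helper84.IR.t_SCL2
        (Pool.Agent.V5helper76.IR.t_PZ Pool.Agent.V5helper82.IR.t_SUB)
        (Pool.Agent.V5helper84.IR.t_BIG Pool.Agent.V5helper82.IR.t_SUB)
        (Pool.Agent.V5helper9.IR.t_CHE2 Pool.Agent.V5helper36.IR.t_COV2))
      Pool.Agent.V5helper53.IR.t_TRF)
    Pool.Agent.V5helper53.IR.t_UPR μ A hm hi h0

end Pool.Agent.V5helper49.IR
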