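import Pool.Agent.V5helper49.IR.Stm

/-! Project IR: the assembly. -/

set_option autoImplicit false

namespace Pool.Agent.V5helper49.IR

open Finset MeasureTheory ProbabilityTheory Filter Topology
open scoped ENNReal

universe u

open Classical in
lemma card_eq (E : Set ℕ) (N : ℕ) : ((range (N + 1)).filter (fun k => k ∈ E)).card = (E ∩ Set.Iic N).ncard := by
  rw [← Set.ncard_coe_finset]
  congr 1
  ext k
  simp only [coe_filter, mem_range, Set.mem_ofPred_eq, Set.mem_inter_iff, Set.mem_Iic]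
  constructor
  · rintro ⟨h1, h2⟩; exact ⟨h2, by omega⟩
  · rintro ⟨h1, h2⟩; exact ⟨by omega, h1⟩

/-- the number of representations -/
noncomputable def rep (A : Set ℕ) (n : ℕ) : ℕ := {x : ℕ × ℕ | x.1 ∈ A ∧ x.2 ∈ A ∧ x.1 + x.2 = n}.ncard

lemma rep_pos {A : Set ℕ} {n : ℕ} (h : 1 ≤ rep A n) : ∃ a ∈ A, ∃ b ∈ A, a + b = n := by
  unfold rep at h
  obtain ⟨x, hx⟩ := Set.nonempty_of_ncard_ne_zero (by omega : {x : ℕ × ℕ | x.1 ∈ A ∧ x.2 ∈ A ∧ x.1 + x.2 = n}.ncard ≠ 0)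
  exact ⟨x.1, hx.1, x.2, hx.2.1, hx.2.2⟩

open Classical in
theorem fin_main (hINF : S_INF.{u}) (hADV : S_ADV) (hLWR : S_LWR.{u}) (hREP : S_REP) :
    ∀ δ η θ : ℝ, 0 < δ → 0 < η → θ < 1 / 2 → ∃ c : ℝ, 0 < c ∧
    ∀ {Ω : Type u} [MeasurableSpace Ω] (μ : Measure Ω) [IsProbabilityMeasure μ] (A : Ω → Set ℕ),
    (∀ n, MeasurableSet {ω | n ∈ A ω}) → iIndepSet (fun n => {ω | n ∈ A ω}) μ →
    (∀ᶠ N : ℕ in atTop, η * N ≤ (({n : ℕ | ∀ k ≤ n, μ.real {ω | k ∈ A ω} ≤ 1 - δ ∨ μ.real {ω | n - k ∈ A ω} ≤ 1 - δ} ∩ Set.Iic N).ncard : ℝ)) →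
    ∀ᵐ ω ∂μ, ∀ E : Set ℕ, (∀ᶠ N : ℕ in atTop, ((E ∩ Set.Iic N).ncard : ℝ) ≤ (N : ℝ) ^ θ) →
      (∀ᶠ n : ℕ in atTop, 1 ≤ rep (A ω ∪ E) n) →
      (∀ᶠ N : ℕ in atTop, c * Real.sqrt (N * Real.log N) ≤ ((A ω ∩ Set.Iic N).ncard : ℝ)) ∧
      ∃ᶠ n : ℕ in atTop, c * Real.log n ≤ rep (A ω) n := by
  intro δ η θ hδ hη hθ
  obtain ⟨κ, hκ, hκ1, hκ2⟩ : ∃ κ : ℝ, 0 < κ ∧ κ ≤ 1 / 10 ∧ θ + 1 / 2 + 2 * κ < 1 := by
    refine ⟨min (1 / 10) ((1 / 2 - θ) / 4), lt_min (by norm_num) (by linarith), min_le_left _ _, ?_⟩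
    have := min_le_right (1 / 10) ((1 / 2 - θ) / 4)
    linarith
  obtain ⟨c, hc, h1⟩ := hINF δ η κ hδ hη hκ hκ1
  refine ⟨min (c / 4) ((c / 4) ^ 2 / 4), lt_min (by positivity) (by positivity), ?_⟩
  intro Ω _ μ _ A hm hi hD
  have hD' : ∀ᶠ N : ℕ in atTop, η * N ≤ (((range (N + 1)).filter (fun n => ∀ k ≤ n, μ.real {ω | k ∈ A ω} ≤ 1 - δ ∨
      μ.real {ω | n - k ∈ A ω} ≤ 1 - δ)).card : ℝ) := by
    filter_upwards [hD] with N hN
    rw [← card_eq] at hN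
    refine hN.trans (le_of_eq ?_)
    congr 2
    ext n
    simp only [mem_filter, Set.mem_ofPred_eq]
  by_cases hfr : ∃ᶠ N : ℕ in atTop, ∑ k ∈ range (N + 1), μ.real {ω | k ∈ A ω} ≤ c * Real.sqrt (N * Real.log N)
  · filter_upwards [h1 μ A hm hi hD' hfr] with ω hω E hE hb
    exfalso
    refine hADV η κ θ hη hκ hκ2 (A ω) E hω ?_ ?_
    · filter_upwards [hE] with N hN
      rw [card_eq]
      exact hN
    · filter_upwards [hb] with n hn
      exact rep_pos hn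
  · have hev : ∀ᶠ N : ℕ in atTop, c * Real.sqrt (N * Real.log N) ≤ ∑ k ∈ range (N + 1), μ.real {ω | k ∈ A ω} := by
      rw [not_frequently] at hfr
      filter_upwards [hfr] with N hN
      exact (not_le.1 hN).le
    filter_upwards [hLWR c hc μ A hm hi hev] with ω hω E hE hb
    constructor
    · filter_upwards [hω] with N hN
      rw [card_eq] at hN
      refine le_trans ?_ hN
      exact mul_le_mul_of_nonneg_right (min_le_left _ _) (Real.sqrt_nonneg _)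
    · have h2 := hREP (c / 4) (by positivity) (A ω) hω
      have h3 : ∀ᶠ n : ℕ in atTop, 1 ≤ n := eventually_ge_atTop 1
      refine (h2.and_eventually h3).mono fun n hn => ?_
      obtain ⟨hn1, hn2⟩ := hn
      refine le_trans ?_ hn1
      refine mul_le_mul_of_nonneg_right (min_le_right _ _) (Real.log_nonneg ?_)
      exact_mod_cast hn2

end Pool.Agent.V5helper49.IR
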